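import Pool.Agent.helper97.IRO.Spec

/-!
# Row iro:FR (MP_90e158_lc): the fixed point sets are null
-/

set_option autoImplicit false

open MeasureTheory Pool.Agent.LOF

namespace Pool.Agent.IRO

lemma FR_point (g : F) (hg : g ≠ 1) : ∃ y0 : D, g.1 y0.1 ≠ y0.1 := by
  have hf1 : g.1 ≠ 1 := fun h => hg (Subtype.ext h)
  obtain ⟨t, ht1, ht2, htop⟩ := exists_top g.2 hf1
  have hmv : ∃ e < t, ∀ z, e < z → z < t → g.1 z ≠ z := by
    rcases htop.2 with ⟨e, he, h⟩ | ⟨e, he, h⟩
    · exact ⟨e, he, fun z h1 h2 => (h z h1 h2).ne'⟩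
    · exact ⟨e, he, fun z h1 h2 => (h z h1 h2).ne⟩
  obtain ⟨e, he, h⟩ := hmv
  have hlt : max e 0 < t := max_lt he ht2.1
  obtain ⟨n, hn⟩ : ∃ n : ℕ, (1:ℝ) / 2 ^ n < t - max e 0 := by
    obtain ⟨n, hn⟩ := exists_pow_lt_of_lt_one (show 0 < t - max e 0 by linarith)
      (show (1/2 : ℝ) < 1 by norm_num)
    refine ⟨n, ?_⟩
    rwa [one_div_pow] at hn
  have hz : IsDyadic (t - 1 / 2 ^ n) := ht1.sub ⟨1, n, by simp⟩
  have hpos : (0:ℝ) < 1 / 2 ^ n := by positivity
  have i1 : max e 0 < t - 1 / 2 ^ n := by linarith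
  rw [max_lt_iff] at i1
  refine ⟨⟨t - 1 / 2 ^ n, hz, i1.2, by linarith [ht2.2]⟩, ?_⟩
  exact h _ i1.1 (by linarith)

lemma FR_actD_inv (g : F) (y : D) : actD g⁻¹ (actD g y) = y := by
  apply Subtype.ext
  show (g⁻¹ : F).1 (g.1 y.1) = y.1
  exact g.1.symm_apply_apply y.1

/-- the orbit of a moved point is infinite -/
lemma FR_orbit (g : F) (hg : g ≠ 1) :
    ∃ z : ℕ → D, Function.Injective z ∧ ∀ n, z (n + 1) = actD g (z n) := by
  obtain ⟨y0, hy0⟩ := FR_point g hg
  let z : ℕ → D := fun n => (actD g)^[n] y0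
  have hz : ∀ n, z (n + 1) = actD g (z n) := fun n => Function.iterate_succ_apply' _ _ _
  have hz1 : ∀ n, (z (n + 1)).1 = g.1 (z n).1 := fun n => by rw [hz]; rfl
  have h0 : (z 0).1 = y0.1 := rfl
  refine ⟨z, ?_, hz⟩
  have h1 : Function.Injective fun n => (z n).1 := by
    rcases lt_or_gt_of_ne hy0 with h | h
    · refine (strictAnti_nat_of_succ_lt fun n => ?_).injective
      induction n with
      | zero => rw [hz1, h0]; exact h
      | succ n ih =>
        rw [hz1 (n + 1), hz1 n]
        rw [hz1 n] at ih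
        exact g.1.strictMono ih
    · refine (strictMono_nat_of_lt_succ fun n => ?_).injective
      induction n with
      | zero => rw [hz1, h0]; exact h
      | succ n ih =>
        rw [hz1 (n + 1), hz1 n]
        rw [hz1 n] at ih
        exact g.1.strictMono ih
  intro a b hab
  exact h1 (congrArg Subtype.val hab)

lemma FR_cyl (p : unitInterval) (z : ℕ → D) (hz : Function.Injective z) (s : Bool) (n : ℕ) :
    bernP p {ε | ∀ i < n, ε (z i) = s} = coinP p {s} ^ n := by
  have h1 : {ε : D → Bool | ∀ i < n, ε (z i) = s} =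
      Set.pi ((Finset.range n).map ⟨z, hz⟩) (fun _ => {s}) := by
    ext ε
    simp only [Set.mem_pi, Finset.coe_map, Function.Embedding.coeFn_mk, Set.mem_image,
      Finset.coe_range, Set.mem_Iio, Set.mem_singleton_iff, forall_exists_index, and_imp,
      forall_apply_eq_imp_iff₂]
    rfl
  rw [h1]
  unfold bernP
  rw [Measure.infinitePi_pi _ (fun _ _ => MeasurableSet.singleton _)]
  rw [Finset.prod_const, Finset.card_map, Finset.card_range]

lemma FR_coin (p : unitInterval) (h0 : 0 < p.1) (h1 : p.1 < 1) (s : Bool) :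
    coinP p {s} < 1 := by
  cases s
  · simp only [coinP, Measure.add_apply, Measure.smul_apply, smul_eq_mul]
    rw [Measure.dirac_apply' _ (MeasurableSet.singleton _),
      Measure.dirac_apply' _ (MeasurableSet.singleton _)]
    simp only [Set.indicator, Set.mem_singleton_iff, Pi.one_apply]
    simp only [Bool.true_eq_false, if_false, mul_zero, if_true, mul_one, zero_add]
    rw [← ENNReal.ofReal_one]
    exact (ENNReal.ofReal_lt_ofReal_iff one_pos).2 (by linarith)
  · simp only [coinP, Measure.add_apply, Measure.smul_apply, smul_eq_mul]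
    rw [Measure.dirac_apply' _ (MeasurableSet.singleton _),
      Measure.dirac_apply' _ (MeasurableSet.singleton _)]
    simp only [Set.indicator, Set.mem_singleton_iff, Pi.one_apply]
    simp only [Bool.false_eq_true, if_false, mul_zero, if_true, mul_one, add_zero]
    rw [← ENNReal.ofReal_one]
    exact (ENNReal.ofReal_lt_ofReal_iff one_pos).2 (by linarith)

/-- ROW iro:FR. For `0 < p < 1` and `g ≠ 1` almost no sign function is fixed by `g`: on the
infinite orbit of a moved dyadic point a fixed sign function is constant. -/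
theorem FR : FR_stmt := by
  intro p g h0 h1 hg
  obtain ⟨z, hinj, hz⟩ := FR_orbit g hg
  have key : ∀ n : ℕ, bernP p {ε | actS g ε = ε} ≤ coinP p {true} ^ n + coinP p {false} ^ n := by
    intro n
    have hsub : {ε : D → Bool | actS g ε = ε} ⊆
        {ε | ∀ i < n, ε (z i) = true} ∪ {ε | ∀ i < n, ε (z i) = false} := by
      intro ε hε
      have hε' : actS g ε = ε := hε
      have hc : ∀ i, ε (z i) = ε (z 0) := by
        intro i
        induction i with
        | zero => rfl
        | succ i ih =>
          have h2 := congrFun hε' (z (i + 1))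
          have h3 : actS g ε (z (i + 1)) = ε (z i) := by
            show ε (actD g⁻¹ (z (i + 1))) = ε (z i)
            rw [hz, FR_actD_inv]
          rw [← h2, h3, ih]
      cases hs : ε (z 0)
      · right
        intro i _
        rw [hc, hs]
      · left
        intro i _
        rw [hc, hs]
    calc bernP p {ε | actS g ε = ε}
        ≤ bernP p ({ε | ∀ i < n, ε (z i) = true} ∪ {ε | ∀ i < n, ε (z i) = false}) :=
          measure_mono hsub
      _ ≤ bernP p {ε | ∀ i < n, ε (z i) = true} + bernP p {ε | ∀ i < n, ε (z i) = false} :=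
          measure_union_le _ _
      _ = _ := by rw [FR_cyl p z hinj, FR_cyl p z hinj]
  have ht : Filter.Tendsto (fun n : ℕ => coinP p {true} ^ n + coinP p {false} ^ n)
      Filter.atTop (nhds (0 + 0)) :=
    (ENNReal.tendsto_pow_atTop_nhds_zero_of_lt_one (FR_coin p h0 h1 true)).add
      (ENNReal.tendsto_pow_atTop_nhds_zero_of_lt_one (FR_coin p h0 h1 false))
  rw [add_zero] at ht
  exact le_antisymm (ge_of_tendsto' ht key) bot_le

end Pool.Agent.IRO
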