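import Pool.Agent.helper97.IRO.Spec

/-!
# Row iro:GE4 (MP_90e158_lc): the map from the comb to the uniform partition
-/

set_option autoImplicit false

open MeasureTheory Pool.Agent.LOF

namespace Pool.Agent.IRO

/-- gluing of two increasing bijections at a point -/
lemma GE4_glue (f g : ℝ ≃o ℝ) (b : ℝ) (h : f b = g b) :
    ∃ s : ℝ ≃o ℝ, (∀ t ≤ b, s t = f t) ∧ ∀ t, b ≤ t → s t = g t := by
  set u : ℝ → ℝ := fun t => if t ≤ b then f t else g t with hu
  have h1 : ∀ t ≤ b, u t = f t := fun t ht => if_pos ht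
  have h2 : ∀ t, b ≤ t → u t = g t := by
    intro t ht
    rcases ht.eq_or_lt with h3 | h3
    · rw [h1 t h3.ge, ← h3, h]
    · exact if_neg (not_le.2 h3)
  have hmono : StrictMono u := by
    intro x y hxy
    rcases le_total y b with hy | hy
    · rw [h1 x (hxy.le.trans hy), h1 y hy]
      exact f.strictMono hxy
    · rcases le_total x b with hx | hx
      · rcases hx.eq_or_lt with h3 | h3
        · rw [h2 x h3.ge, h2 y hy]
          exact g.strictMono hxy
        · rw [h1 x hx, h2 y hy]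
          calc f x < f b := f.strictMono h3
            _ = g b := h
            _ ≤ g y := g.monotone hy
      · rw [h2 x hx, h2 y hy]
        exact g.strictMono hxy
  have hsurj : Function.Surjective u := by
    intro y
    rcases le_total y (f b) with hy | hy
    · refine ⟨f.symm y, ?_⟩
      rw [h1, f.apply_symm_apply]
      rwa [← f.le_iff_le, f.apply_symm_apply]
    · refine ⟨g.symm y, ?_⟩
      rw [h2, g.apply_symm_apply]
      rw [← g.le_iff_le, g.apply_symm_apply, ← h]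
      exact hy
  exact ⟨hmono.orderIsoOfSurjective u hsurj, h1, h2⟩

lemma GE4_glue_pl (f g s : ℝ ≃o ℝ) (b : ℝ) (hf : ∀ t ≤ b, s t = f t) (hg : ∀ t, b ≤ t → s t = g t)
    (B C : Finset ℝ) (hB : PLWith f B) (hC : PLWith g C) : PLWith s (insert b (B ∪ C)) := by
  intro x y hxy hb
  rcases hb b (Finset.mem_insert_self _ _) with h1 | h1
  · obtain ⟨k, c, hk⟩ := hC x y hxy (fun b' hb' =>
      hb b' (Finset.mem_insert_of_mem (Finset.mem_union_right _ hb')))
    exact ⟨k, c, fun z hz => by rw [hg z (h1.trans hz.1), hk z hz]⟩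
  · obtain ⟨k, c, hk⟩ := hB x y hxy (fun b' hb' =>
      hb b' (Finset.mem_insert_of_mem (Finset.mem_union_left _ hb')))
    exact ⟨k, c, fun z hz => by rw [hf z (hz.2.trans h1), hk z hz]⟩

/-- the affine map `t ↦ 2 ^ j * (t - b) + d` -/
lemma GE4_aff (j : ℤ) (b d : ℝ) : ∃ s : ℝ ≃o ℝ, ∀ t, s t = 2 ^ j * (t - b) + d := by
  have hp : (0 : ℝ) < 2 ^ j := by positivity
  have hmono : StrictMono (fun t : ℝ => (2 : ℝ) ^ j * (t - b) + d) := by
    intro x y hxy
    have := mul_lt_mul_of_pos_left (show x - b < y - b by linarith) hp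
    simp only
    linarith
  have hsurj : Function.Surjective (fun t : ℝ => (2 : ℝ) ^ j * (t - b) + d) := by
    intro y
    refine ⟨(y - d) / 2 ^ j + b, ?_⟩
    simp only
    rw [add_sub_cancel_right, mul_div_cancel₀ _ hp.ne']
    ring
  exact ⟨hmono.orderIsoOfSurjective _ hsurj, fun t => rfl⟩

lemma GE4_len (N n : ℕ) (h : n < N) : ∃ l : ℤ, cb N (n + 1) - cb N n = 2 ^ l := by
  unfold cb
  rw [if_pos h]
  by_cases h2 : n + 1 < N
  · rw [if_pos h2]
    refine ⟨-((n : ℤ) + 1), ?_⟩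
    rw [zpow_neg]
    have e : (2 : ℝ) ^ ((n : ℤ) + 1) = 2 ^ (n + 1) := by
      rw [← zpow_natCast]; push_cast; rfl
    rw [e, pow_succ]
    have : (2 : ℝ) ^ n ≠ 0 := by positivity
    field_simp
    ring
  · rw [if_neg h2]
    refine ⟨-(n : ℤ), ?_⟩
    rw [zpow_neg, zpow_natCast]
    ring

lemma GE4_mono (N : ℕ) : Monotone (cb N) := by
  refine monotone_nat_of_le_succ fun n => ?_
  by_cases h : n < N
  · obtain ⟨l, hl⟩ := GE4_len N n h
    have : (0 : ℝ) < 2 ^ l := by positivity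
    linarith
  · unfold cb
    rw [if_neg h, if_neg (by omega)]

lemma GE4_dy (N n : ℕ) : IsDyadic (cb N n) := by
  unfold cb
  split_ifs
  · have h1 : IsDyadic (1 : ℝ) := by simpa using IsDyadic.int 1
    exact h1.sub ⟨1, n, by simp⟩
  · simpa using IsDyadic.int 1

lemma GE4_step (m n : ℕ) (hn : n ≤ 2 ^ m) : ∃ s : ℝ ≃o ℝ, (∀ x ≤ 0, s x = x) ∧
    (∃ B : Finset ℝ, (∀ b ∈ B, IsDyadic b) ∧ PLWith s B) ∧
    (∀ i ≤ n, s (cb (2 ^ m) i) = (i : ℝ) / 2 ^ m) ∧
    ∀ i < n, ∃ (j : ℤ) (c : ℝ), ∀ z ∈ Set.Icc (cb (2 ^ m) i) (cb (2 ^ m) (i + 1)),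
      s z = (2 : ℝ) ^ j * z + c := by
  have h0 : cb (2 ^ m) 0 = 0 := by
    unfold cb
    rw [if_pos (by positivity)]
    simp
  induction n with
  | zero =>
    refine ⟨1, fun x _ => rfl, ⟨∅, by simp, PLWith.one _⟩, fun i hi => ?_, fun i hi => absurd hi
      (Nat.not_lt_zero _)⟩
    have : i = 0 := Nat.le_zero.1 hi
    rw [this, h0]
    show (0 : ℝ) = _
    simp
  | succ n ih =>
    obtain ⟨f, hf0, ⟨B, hB, hBf⟩, hf1, hf2⟩ := ih (by omega)
    obtain ⟨l, hl⟩ := GE4_len (2 ^ m) n (by omega)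
    obtain ⟨g, hg⟩ := GE4_aff (-(m : ℤ) - l) (cb (2 ^ m) n) ((n : ℝ) / 2 ^ m)
    have hfg : f (cb (2 ^ m) n) = g (cb (2 ^ m) n) := by
      rw [hf1 n le_rfl, hg, sub_self, mul_zero, zero_add]
    obtain ⟨s, hs1, hs2⟩ := GE4_glue f g _ hfg
    have hgpl : PLWith g ∅ := by
      intro x y _ _
      refine ⟨-(m : ℤ) - l, -(2 ^ (-(m : ℤ) - l) * cb (2 ^ m) n) + (n : ℝ) / 2 ^ m, fun z _ => ?_⟩
      rw [hg]; ring
    refine ⟨s, fun x hx => ?_, ⟨_, ?_, GE4_glue_pl f g s _ hs1 hs2 B ∅ hBf hgpl⟩, fun i hi => ?_,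
      fun i hi => ?_⟩
    · rw [hs1, hf0 x hx]
      refine hx.trans ?_
      rw [← h0]
      exact GE4_mono _ (Nat.zero_le n)
    · intro b hb
      rcases Finset.mem_insert.1 hb with h | h
      · rw [h]; exact GE4_dy _ _
      · rw [Finset.union_empty] at h
        exact hB b h
    · rcases Nat.lt_or_ge n i with h | h
      · have hi' : i = n + 1 := by omega
        rw [hi', hs2 _ (GE4_mono _ (Nat.le_succ n)), hg, hl, ← zpow_add₀ (by norm_num)]
        have e : -(m : ℤ) - l + l = -(m : ℤ) := by ring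
        rw [e, zpow_neg, zpow_natCast]
        push_cast
        ring
      · rw [hs1 _ (GE4_mono _ h), hf1 i h]
    · rcases Nat.lt_or_ge i n with h | h
      · obtain ⟨j, c, hj⟩ := hf2 i h
        refine ⟨j, c, fun z hz => ?_⟩
        rw [hs1 z (hz.2.trans (GE4_mono _ h)), hj z hz]
      · have hi' : i = n := by omega
        refine ⟨-(m : ℤ) - l, -(2 ^ (-(m : ℤ) - l) * cb (2 ^ m) n) + (n : ℝ) / 2 ^ m,
          fun z hz => ?_⟩
        rw [hi'] at hz
        rw [hs2 z hz.1, hg]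
        ring

/-- ROW iro:GE4. There is an element of `F` that maps the comb with `2 ^ m` intervals onto the
uniform partition and is affine on the intervals of the comb. -/
theorem GE4 : GE4_stmt := by
  intro m
  obtain ⟨f, hf0, ⟨B, hB, hBf⟩, hf1, hf2⟩ := GE4_step m (2 ^ m) le_rfl
  have hN : cb (2 ^ m) (2 ^ m) = 1 := by
    unfold cb
    rw [if_neg (lt_irrefl _)]
  have h1 : f 1 = (1 : ℝ ≃o ℝ) 1 := by
    have := hf1 (2 ^ m) le_rfl
    rw [hN] at this
    rw [this]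
    show _ = (1 : ℝ)
    push_cast
    exact div_self (by positivity)
  obtain ⟨s, hs1, hs2⟩ := GE4_glue f 1 1 h1
  have hle : ∀ i ≤ 2 ^ m, cb (2 ^ m) i ≤ 1 := by
    intro i hi
    rw [← hN]
    exact GE4_mono _ hi
  refine ⟨s, ⟨fun x hx => ?_, _, ?_, GE4_glue_pl f 1 s _ hs1 hs2 B ∅ hBf (PLWith.one _)⟩,
    fun i hi => ?_, fun i hi => ?_⟩
  · rw [Set.mem_Ioo, not_and_or, not_lt, not_lt] at hx
    rcases hx with hx | hx
    · rw [hs1 x (hx.trans zero_le_one), hf0 x hx]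
    · rw [hs2 x hx]; rfl
  · intro b hb
    rcases Finset.mem_insert.1 hb with h | h
    · rw [h]; simpa using IsDyadic.int 1
    · rw [Finset.union_empty] at h
      exact hB b h
  · rw [hs1 _ (hle i hi), hf1 i hi]
  · obtain ⟨j, c, hj⟩ := hf2 i hi
    refine ⟨j, c, fun z hz => ?_⟩
    rw [hs1 z (hz.2.trans (hle _ hi)), hj z hz]

end Pool.Agent.IRO
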