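import Pool.Agent.helper97.IRO.Spec

/-!
# Row iro:ME2 (MP_90e158_lc): measurability and invariance of the types
-/

set_option autoImplicit false

open MeasureTheory Pool.Agent.LOF

namespace Pool.Agent.IRO

lemma ME2_meas (k : F) : MeasurableSet {r : LO F | Pr r k} := by
  have h1 : Measurable (fun r : LO F => r.1 (1, k)) :=
    (measurable_pi_apply (1, k)).comp measurable_subtype_coe
  exact h1 (measurableSet_singleton true)

lemma ME2_cof (H : Subgroup F) (g : F) : MeasurableSet {r : LO F | Cof (Pr r) H g} := by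
  have h1 : {r : LO F | Cof (Pr r) H g} =
      {r | g ∈ H} ∩ ⋂ h : F, ⋂ (_ : h ∈ H), ⋃ n : ℤ, {r | Pr r (h⁻¹ * g ^ n)} := by
    ext r
    rw [Set.mem_inter_iff, Set.mem_iInter]
    constructor
    · intro h
      refine ⟨h.1, fun k => ?_⟩
      rw [Set.mem_iInter]
      intro hk
      rw [Set.mem_iUnion]
      exact h.2 k hk
    · intro h
      refine ⟨h.1, fun k hk => ?_⟩
      have h2 := h.2 k
      rw [Set.mem_iInter] at h2
      have h3 := h2 hk
      rw [Set.mem_iUnion] at h3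
      exact h3
  rw [h1]
  refine (MeasurableSet.const _).inter (MeasurableSet.iInter fun h => MeasurableSet.iInter
    fun _ => MeasurableSet.iUnion fun n => ME2_meas _)

lemma ME2_conr : MeasurableSet {r : LO F | Conr (Pr r)} := by
  have h1 : {r : LO F | Conr (Pr r)} = ⋂ f : F, ⋂ g : F,
      ({r | Pr r f}ᶜ ∪ ({r | Pr r g}ᶜ ∪ ⋃ n : ℕ, {r | Pr r (g⁻¹ * f * g ^ n)})) := by
    ext r
    rw [Set.mem_iInter]
    constructor
    · intro h f
      rw [Set.mem_iInter]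
      intro g
      by_cases c1 : Pr r f
      · by_cases c2 : Pr r g
        · right; right
          rw [Set.mem_iUnion]
          exact h f g c1 c2
        · right; left
          exact c2
      · left
        exact c1
    · intro h f g c1 c2
      have h2 := h f
      rw [Set.mem_iInter] at h2
      rcases h2 g with h3 | h3 | h3
      · exact absurd c1 h3
      · exact absurd c2 h3
      · rw [Set.mem_iUnion] at h3
        exact h3
  rw [h1]
  exact MeasurableSet.iInter fun f => MeasurableSet.iInter fun g =>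
    (ME2_meas f).compl.union ((ME2_meas g).compl.union (MeasurableSet.iUnion fun n => ME2_meas _))

lemma ME2_inv_apply (g : F) (x : ℝ) : (g⁻¹ : F).1 (g.1 x) = x := g.1.symm_apply_apply x

lemma ME2_Cof (P P' : F → Prop) (g : F) (hP : ∀ k, P' k ↔ P (g⁻¹ * k * g)) (a b : ℝ) (u : F)
    (hu : Cof P (FI a b) u) : Cof P' (FI (g.1 a) (g.1 b)) (g * u * g⁻¹) := by
  refine ⟨FI_conj hu.1 g, fun k hk => ?_⟩
  have h1 := FI_conj hk g⁻¹
  rw [ME2_inv_apply, ME2_inv_apply, inv_inv] at h1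
  obtain ⟨n, hn⟩ := hu.2 _ h1
  refine ⟨n, ?_⟩
  rw [hP]
  have e : g⁻¹ * (k⁻¹ * (g * u * g⁻¹) ^ n) * g = (g⁻¹ * k * g)⁻¹ * u ^ n := by
    rw [conj_zpow]; group
  rw [e]
  exact hn

lemma ME2_Aty (P P' : F → Prop) (g : F) (hP : ∀ k, P' k ↔ P (g⁻¹ * k * g)) (a b : ℝ)
    (h : Aty P a b) : Aty P' (g.1 a) (g.1 b) := by
  obtain ⟨u, ⟨b', hb', hu⟩, hc⟩ := h
  exact ⟨g * u * g⁻¹, ⟨g.1 b', g.1.strictMono hb', FI_conj hu g⟩, ME2_Cof P P' g hP a b u hc⟩

lemma ME2_Bty (P P' : F → Prop) (g : F) (hP : ∀ k, P' k ↔ P (g⁻¹ * k * g)) (a b : ℝ)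
    (h : Bty P a b) : Bty P' (g.1 a) (g.1 b) := by
  obtain ⟨u, ⟨b', hb', hu⟩, hc⟩ := h
  exact ⟨g * u * g⁻¹, ⟨g.1 b', g.1.strictMono hb', FI_conj hu g⟩, ME2_Cof P P' g hP a b u hc⟩

lemma ME2_Conr (P P' : F → Prop) (g : F) (hP : ∀ k, P' k ↔ P (g⁻¹ * k * g))
    (h : Conr P) : Conr P' := by
  intro f k hf hk
  rw [hP] at hf hk
  obtain ⟨n, hn⟩ := h _ _ hf hk
  refine ⟨n, ?_⟩
  rw [hP]
  have e1 : g⁻¹ * k ^ n * g = (g⁻¹ * k * g) ^ n := by
    have := conj_pow (i := n) (a := g⁻¹) (b := k)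
    rw [inv_inv] at this
    exact this.symm
  have e : g⁻¹ * (k⁻¹ * f * k ^ n) * g = (g⁻¹ * k * g)⁻¹ * (g⁻¹ * f * g) * (g⁻¹ * k * g) ^ n := by
    rw [← e1]; group
  rw [e]
  exact hn

/-- ROW iro:ME2. The sets of orders with a given type are measurable; equivariance. -/
theorem ME2 : ME2_stmt := by
  have key : ∀ (g : F) (r : LO F) (k : F), Pr r k ↔ Pr (conj g r) ((g⁻¹)⁻¹ * k * g⁻¹) := by
    intro g r k
    rw [Pr_conj]
    have e : g⁻¹ * ((g⁻¹)⁻¹ * k * g⁻¹) * g = k := by group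
    rw [e]
  refine ⟨fun a b => ?_, fun a b => ?_, ME2_conr, fun g r a b => ⟨⟨fun h => ?_, fun h => ?_⟩,
    ⟨fun h => ?_, fun h => ?_⟩⟩, fun g r => ⟨fun h => ?_, fun h => ?_⟩⟩
  · have h1 : {r : LO F | Aty (Pr r) a b} =
        ⋃ g : F, ({r | ∃ b' < b, g ∈ FI a b'} ∩ {r | Cof (Pr r) (FI a b) g}) := by
      ext r
      rw [Set.mem_iUnion]
      rfl
    rw [h1]
    exact MeasurableSet.iUnion fun g => (MeasurableSet.const _).inter (ME2_cof _ _)
  · have h1 : {r : LO F | Bty (Pr r) a b} =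
        ⋃ g : F, ({r | ∃ a' > a, g ∈ FI a' b} ∩ {r | Cof (Pr r) (FI a b) g}) := by
      ext r
      rw [Set.mem_iUnion]
      rfl
    rw [h1]
    exact MeasurableSet.iUnion fun g => (MeasurableSet.const _).inter (ME2_cof _ _)
  · have h1 := ME2_Aty _ _ g⁻¹ (key g r) _ _ h
    rwa [ME2_inv_apply, ME2_inv_apply] at h1
  · exact ME2_Aty _ _ g (Pr_conj r g) _ _ h
  · have h1 := ME2_Bty _ _ g⁻¹ (key g r) _ _ h
    rwa [ME2_inv_apply, ME2_inv_apply] at h1
  · exact ME2_Bty _ _ g (Pr_conj r g) _ _ h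
  · exact ME2_Conr _ _ g⁻¹ (key g r) h
  · exact ME2_Conr _ _ g (Pr_conj r g) h

end Pool.Agent.IRO
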